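import Mathlib
import Pool.Agent.H526.PE.Cls
import Pool.Agent.H526.PE.Phl
import Pool.Agent.H140.MH.AllM
import Pool.Agent.H140.MH.Fam

/-!
# Chowla's conjecture over `F_q[X]`, `q` even: arbitrary inseparable factors

`K` is a finite field with an even number of elements, `F ∈ K[X][T]` is not a polynomial in `T ^ 2`
(so it has roots of odd multiplicity), and for some `μ ≠ 0` in `K[X]` all the roots `θ` of `F` of odd
multiplicity satisfy: `μ θ` is the sum of a rational function and the square of an element separable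
over `K(X)`.  There is no condition on the inseparable factors of `F`.  Then the sums of `λ(F(a))` and
of `μ(F(a))` over the monic `a` of degree `n` are `o(q ^ n)`, also with the weights of
`MP_648c71_nt.EvenCharAllDegrees`, all complex polynomial phases, and in all residue classes,
uniformly.  The class is closed under translations and, for a fixed `μ`, under products.

The class contains `F = h (α S ^ 2 + (β T + γ) R ^ 2)` for all `α, β, γ ∈ K[X]`, `S, R ∈ K[X][T]`,
`h ∈ K[X][T ^ 2]`, `α β R h ≠ 0`.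

Idea.  Up to a square `F = f h` with `f` separable and `h = g ^ 2 (U ^ 2 + X V ^ 2)`, `U`, `V` coprime.
The parity of the number of prime factors of `G = A ^ 2 + X B ^ 2` (`A`, `B` coprime) is given by an
explicit differential: the residues at `B = 0` and at infinity of rational functions of `A`, `A'`, `B`,
`B'` (Swan's theorem for a lift to the Witt vectors, and the residue theorem).  For `A = U(a)`,
`B = V(a)` and `a` varying by `μ (N t) ^ 2` with `N` divisible by the resultant the residues at `B = 0`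
can be moved to infinity, since `U(a)` has the inverse `u(a) / r` modulo `V(a)`; and the residues at
infinity are polynomial phases in short windows, as the degrees fall.  So `λ(h(a))` disappears after an
application of the inequality of Gowers, Cauchy and Schwarz, which leaves the product of the
translates of `f`; this is estimated by the theorem for separable polynomials.
-/

namespace Pool.Agent.Results.MP_648c71_nt.AllInseparableFactors

open Polynomial Filter
open scoped ComplexConjugate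

open Classical in
/-- The Liouville function of `K[X]`: `(-1) ^ k` if `F` is a nonzero constant times a product of `k`
monic irreducible polynomials, counted with multiplicity, and `0` for `F = 0`. -/
noncomputable def liouville {K : Type} [Field K] (F : K[X]) : ℤ :=
  if F = 0 then 0 else (-1) ^ Multiset.card (UniqueFactorizationMonoid.factors F)

open Classical in
/-- The Möbius function of `K[X]`: `(-1) ^ k` if `F` is a nonzero constant times a product of `k`
distinct monic irreducible polynomials, and `0` for all other `F`. -/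
noncomputable def moebius {K : Type} [Field K] (F : K[X]) : ℤ :=
  if Squarefree F then (-1) ^ Multiset.card (UniqueFactorizationMonoid.factors F) else 0

/-- For every root `θ` of odd multiplicity of `F` in an algebraic closure of `K(X)`, the product `μ θ`
is the difference of the square of an element separable over `K(X)` and an element of `K(X)`. -/
def SquareRoots {K : Type} [Field K] (F : K[X][X]) (μ : K[X]) : Prop :=
  ∀ θ : AlgebraicClosure (RatFunc K),
    Odd (rootMultiplicity θ (F.map (algebraMap K[X] (AlgebraicClosure (RatFunc K))))) →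
    ∃ (s : RatFunc K) (σ : AlgebraicClosure (RatFunc K)), IsSeparable (RatFunc K) σ ∧
      σ ^ 2 = algebraMap K[X] (AlgebraicClosure (RatFunc K)) μ * θ +
        algebraMap (RatFunc K) (AlgebraicClosure (RatFunc K)) s

/-- The weights: bounded by `1`, and only multiplied by a real additive character of `u` when
`μ u ^ 2` is added to the argument. -/
def IsWeight {K : Type} [Field K] (μ : K[X]) (w : K[X] → ℝ) : Prop :=
  (∀ g, |w g| ≤ 1) ∧ ∀ g, ∃ χ : AddChar K[X] ℝ, ∀ u, w (g + μ * u ^ 2) = w g * χ u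

/-- Polynomial phases of degree less than `s` on the additive group of `K[X]`: the multiplicative
derivatives of order `s` are equal to `1`. -/
def IsPhase {K : Type} [Field K] : ℕ → (K[X] → ℂ) → Prop
  | 0, P => ∀ u, P u = 1
  | s + 1, P => ∀ y, IsPhase s (fun u => P (u + y) * conj (P u))

/-- The sum of `w(a) P(a) Λ(F(a))` over the monic `a` of degree `n` in the residue class `r`
modulo `Q`; `Λ` is the Liouville or the Möbius function. -/
noncomputable def chowlaSum {K : Type} [Field K] (Λ : K[X] → ℤ) (F : K[X][X]) (w : K[X] → ℝ)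
    (P : K[X] → ℂ) (Q r : K[X]) (n : ℕ) : ℂ :=
  ∑ᶠ a ∈ {a : K[X] | a.Monic ∧ a.natDegree = n ∧ Q ∣ a - r},
    P a * ((w a * (Λ (F.eval a) : ℝ) : ℝ) : ℂ)

/-- The mean value of `Λ(F(a))` over the monic `a` of degree `n`. -/
noncomputable def mean {K : Type} [Field K] [Fintype K] (Λ : K[X] → ℤ) (F : K[X][X]) (n : ℕ) : ℝ :=
  (∑ᶠ a ∈ {a : K[X] | a.Monic ∧ a.natDegree = n}, (Λ (F.eval a) : ℝ)) /
    (Fintype.card K : ℝ) ^ n

/-- The mean values of `λ(F(a))` and of `μ(F(a))` tend to zero. -/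
def Chowla {K : Type} [Field K] [Fintype K] (F : K[X][X]) : Prop :=
  Tendsto (mean liouville F) atTop (nhds 0) ∧ Tendsto (mean moebius F) atTop (nhds 0)

section aux

variable {K : Type} [Field K]

theorem phase_iff (s : ℕ) (P : K[X] → ℂ) : IsPhase s P ↔ Pool.Agent.H526.PE.Ph s P := by
  induction s generalizing P with
  | zero => exact Iff.rfl
  | succ s ih =>
    constructor
    · intro h y
      exact (ih _).1 (h y)
    · intro h y
      exact (ih _).2 (h y)

theorem ph_mono {s t : ℕ} (h : s ≤ t) {P : K[X] → ℂ} (hP : Pool.Agent.H526.PE.Ph s P) :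
    Pool.Agent.H526.PE.Ph t P := by
  induction h with
  | refl => exact hP
  | step _ ih => exact Pool.Agent.H526.PE.Phl.main.2.2.1 _ _ _ ih

theorem one_phase (s : ℕ) : IsPhase s (fun _ : K[X] => (1 : ℂ)) := by
  induction s with
  | zero => exact fun _ => rfl
  | succ s ih =>
    intro y
    have : (fun _ : K[X] => (1 : ℂ) * conj (1 : ℂ)) = fun _ => 1 := by
      funext u
      rw [map_one, one_mul]
    show IsPhase s (fun _ : K[X] => (1 : ℂ) * conj (1 : ℂ))
    rw [this]
    exact ih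

theorem one_weight (μ : K[X]) : IsWeight μ (fun _ => 1) :=
  ⟨fun _ => by rw [abs_one], fun _ => ⟨1, fun u => by rw [AddChar.one_apply, one_mul]⟩⟩

/-- Residue classes. -/
theorem classes [Fintype K] [CharP K 2] (s : ℕ) (ε : ℝ) (m : ℕ) (W : K[X] → ℂ)
    (h : ∀ P : K[X] → ℂ, Pool.Agent.H526.PE.Ph (max s 2) P →
      ‖∑ a ∈ Pool.Agent.H694.Typ.Mn K m, P a * W a‖ ≤ ε * (Fintype.card K : ℝ) ^ m)
    (P : K[X] → ℂ) (hP : IsPhase s P) (Q r : K[X]) (hQ : Q ≠ 0) :
    ‖∑ᶠ a ∈ {a : K[X] | a.Monic ∧ a.natDegree = m ∧ Q ∣ a - r}, P a * W a‖ ≤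
      ε * (Fintype.card K : ℝ) ^ m := by
  classical
  obtain ⟨N, χ, hN, hχ, hind⟩ := Pool.Agent.H526.PE.Cls.main K Q r hQ
  have hN' : (0 : ℝ) < N := by exact_mod_cast hN
  have hset : {a : K[X] | a.Monic ∧ a.natDegree = m ∧ Q ∣ a - r} =
      ↑((Pool.Agent.H694.Typ.Mn K m).filter (fun a => Q ∣ a - r)) := by
    ext a
    rw [Finset.coe_filter, Set.mem_ofPred_eq, Set.mem_ofPred_eq, Pool.Agent.H694.Typ.mem_Mn]
    tauto
  rw [hset, finsum_mem_coe_finset, Finset.sum_filter]
  have h1 : ∀ a : K[X], (if Q ∣ a - r then P a * W a else 0) =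
      (∑ i, (P a * χ i a) * W a) / N := by
    intro a
    have : (if Q ∣ a - r then P a * W a else 0) = (if Q ∣ a - r then (1 : ℂ) else 0) * (P a * W a) := by
      split_ifs <;> ring
    rw [this, hind a, div_mul_eq_mul_div, Finset.sum_mul]
    congr 1
    refine Finset.sum_congr rfl fun i _ => ?_
    ring
  rw [Finset.sum_congr rfl fun a _ => h1 a, ← Finset.sum_div, Finset.sum_comm, norm_div,
    Complex.norm_natCast, div_le_iff₀ hN']
  have h2 : ∀ i, Pool.Agent.H526.PE.Ph (max s 2) (fun a => P a * χ i a) := fun i =>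
    Pool.Agent.H526.PE.Phl.main.1 _ _ _ _ (ph_mono (le_max_left _ _) ((phase_iff s P).1 hP))
      (ph_mono (le_max_right _ _) (hχ i))
  calc ‖∑ i, ∑ a ∈ Pool.Agent.H694.Typ.Mn K m, (P a * χ i a) * W a‖
      ≤ ∑ i, ‖∑ a ∈ Pool.Agent.H694.Typ.Mn K m, (P a * χ i a) * W a‖ := norm_sum_le _ _
    _ ≤ ∑ _i : Fin N, ε * (Fintype.card K : ℝ) ^ m := Finset.sum_le_sum fun i _ => h _ (h2 i)
    _ = ε * (Fintype.card K : ℝ) ^ m * N := by
        rw [Finset.sum_const, Finset.card_univ, Fintype.card_fin, nsmul_eq_mul, mul_comm]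

theorem liouville_sq (c G : K[X]) (hc : c ≠ 0) : liouville (c ^ 2 * G) = liouville G := by
  have h1 : liouville (c ^ 2 * G) = liouville c * (liouville c * liouville G) := by
    rw [pow_two, mul_assoc]
    exact (Pool.Agent.H524.Cw.lio_mul c (c * G)).trans
      (congrArg _ (Pool.Agent.H524.Cw.lio_mul c G))
  have h2 : liouville c * liouville c = 1 := by
    unfold liouville
    rw [if_neg hc, ← mul_pow]
    norm_num
  rw [h1, ← mul_assoc, h2, one_mul]

end aux

/-- The main estimate. -/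
theorem main (K : Type) [Field K] [Fintype K] [CharP K 2] (F : K[X][X]) (μ : K[X])
    (hF : derivative F ≠ 0) (hμ : μ ≠ 0) (hr : SquareRoots F μ) (s : ℕ) (ε : ℝ) (hε : 0 < ε) :
    ∃ N : ℕ, ∀ n : ℕ, N ≤ n → ∀ w : K[X] → ℝ, IsWeight μ w → ∀ P : K[X] → ℂ, IsPhase s P →
      ∀ Q r : K[X], Q ≠ 0 →
        ‖chowlaSum liouville F w P Q r n‖ ≤ ε * (Fintype.card K : ℝ) ^ n ∧
        ‖chowlaSum moebius F w P Q r n‖ ≤ ε * (Fintype.card K : ℝ) ^ n := by
  obtain ⟨c, f, h, hc, hcF, hdeg, hsep, hh0, hh, hroots⟩ := Pool.Agent.H140.MH.Roots.split F hF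
  obtain ⟨N, hN⟩ := Pool.Agent.H140.MH.s_fin K f h μ (max s 2) hdeg hsep hμ
    (fun θ hθ => hr θ (hroots θ hθ)) hh0 hh ε hε
  obtain ⟨N', hN'⟩ := Pool.Agent.H140.MH.s_mobh2 K F f h c μ (max s 2) hc hcF hdeg hsep hμ
    (fun θ hθ => hr θ (hroots θ hθ)) hh0 hh ε hε
  refine ⟨max N N', fun n hn w hw P hP Q r hQ => ⟨?_, ?_⟩⟩
  · unfold chowlaSum
    refine classes s ε n _ (fun P' hP' => ?_) P hP Q r hQ
    have h1 := hN n (le_trans (le_max_left _ _) hn) w hw.1 hw.2 P' hP'
    have h2 : ∀ a : K[X], P' a * ((w a * (liouville (F.eval a) : ℝ) : ℝ) : ℂ) =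
        ((w a * (Pool.Agent.H140.Q.liou (f.eval a * h.eval a) : ℝ) : ℝ) : ℂ) * P' a := by
      intro a
      have h3 : f.eval a * h.eval a = c ^ 2 * F.eval a := by
        rw [← eval_mul, ← hcF, eval_mul, eval_C]
      rw [h3, mul_comm]
      have h4 : Pool.Agent.H140.Q.liou (c ^ 2 * F.eval a) = liouville (F.eval a) :=
        liouville_sq c (F.eval a) hc
      rw [h4]
    rw [Finset.sum_congr rfl fun a _ => h2 a]
    exact h1
  · unfold chowlaSum
    refine classes s ε n _ (fun P' hP' => ?_) P hP Q r hQ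
    have h1 := hN' n (le_trans (le_max_right _ _) hn) w hw.1 hw.2 P' hP'
    have h2 : ∀ a : K[X], P' a * ((w a * (moebius (F.eval a) : ℝ) : ℝ) : ℂ) =
        ((w a * (Pool.Agent.H985.Chow.mob (F.eval a) : ℝ) : ℝ) : ℂ) * P' a := by
      intro a
      rw [mul_comm]
      rfl
    rw [Finset.sum_congr rfl fun a _ => h2 a]
    exact h1

theorem mean_tendsto (K : Type) [Field K] [Fintype K] [CharP K 2] (Λ : K[X] → ℤ) (F : K[X][X])
    (h : ∀ ε : ℝ, 0 < ε → ∃ N : ℕ, ∀ n : ℕ, N ≤ n →
      ‖chowlaSum Λ F (fun _ => 1) (fun _ => 1) 1 0 n‖ ≤ ε * (Fintype.card K : ℝ) ^ n) :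
    Tendsto (mean Λ F) atTop (nhds 0) := by
  rw [Metric.tendsto_atTop]
  intro ε hε
  obtain ⟨N, hN⟩ := h (ε / 2) (by positivity)
  refine ⟨N, fun n hn => ?_⟩
  have h1 := hN n hn
  have hset : {a : K[X] | a.Monic ∧ a.natDegree = n ∧ (1 : K[X]) ∣ a - 0} =
      {a : K[X] | a.Monic ∧ a.natDegree = n} := by
    ext a
    rw [Set.mem_ofPred_eq, Set.mem_ofPred_eq]
    exact ⟨fun h => ⟨h.1, h.2.1⟩, fun h => ⟨h.1, h.2, one_dvd _⟩⟩
  have hset2 : {a : K[X] | a.Monic ∧ a.natDegree = n} = ↑(Pool.Agent.H694.Typ.Mn K n) := by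
    ext a
    rw [Finset.mem_coe, Set.mem_ofPred_eq, Pool.Agent.H694.Typ.mem_Mn]
  have h2 : chowlaSum Λ F (fun _ => 1) (fun _ => 1) 1 0 n =
      ((∑ᶠ a ∈ {a : K[X] | a.Monic ∧ a.natDegree = n}, (Λ (F.eval a) : ℝ) : ℝ) : ℂ) := by
    unfold chowlaSum
    rw [hset, hset2, finsum_mem_coe_finset, finsum_mem_coe_finset, Complex.ofReal_sum]
    refine Finset.sum_congr rfl fun a _ => ?_
    rw [one_mul, one_mul]
  rw [h2, Complex.norm_real, Real.norm_eq_abs] at h1
  have hq : (0 : ℝ) < (Fintype.card K : ℝ) ^ n := by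
    have : 0 < Fintype.card K := Fintype.card_pos
    positivity
  rw [dist_zero_right, mean, norm_div, Real.norm_eq_abs, Real.norm_of_nonneg hq.le,
    div_lt_iff₀ hq]
  refine lt_of_le_of_lt h1 ?_
  exact mul_lt_mul_of_pos_right (by linarith) hq

theorem chowla (K : Type) [Field K] [Fintype K] [CharP K 2] (F : K[X][X]) (μ : K[X])
    (hF : derivative F ≠ 0) (hμ : μ ≠ 0) (hr : SquareRoots F μ) : Chowla F := by
  constructor
  · refine mean_tendsto K _ F fun ε hε => ?_
    obtain ⟨N, hN⟩ := main K F μ hF hμ hr 0 ε hε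
    exact ⟨N, fun n hn => (hN n hn (fun _ => 1) (one_weight μ) (fun _ => 1) (one_phase 0) 1 0
      one_ne_zero).1⟩
  · refine mean_tendsto K _ F fun ε hε => ?_
    obtain ⟨N, hN⟩ := main K F μ hF hμ hr 0 ε hε
    exact ⟨N, fun n hn => (hN n hn (fun _ => 1) (one_weight μ) (fun _ => 1) (one_phase 0) 1 0
      one_ne_zero).2⟩

section closure

variable {K : Type} [Field K]

theorem squareRoots_mul (F G : K[X][X]) (μ : K[X]) (hF : SquareRoots F μ)
    (hG : SquareRoots G μ) : SquareRoots (F * G) μ := by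
  intro θ hθ
  have hne : (F * G).map (algebraMap K[X] (AlgebraicClosure (RatFunc K))) ≠ 0 := by
    intro h
    rw [h, rootMultiplicity_zero] at hθ
    exact Nat.not_odd_zero hθ
  rw [Polynomial.map_mul] at hθ hne
  rw [rootMultiplicity_mul hne, Nat.odd_add'] at hθ
  by_cases h : Odd (rootMultiplicity θ (G.map (algebraMap K[X] (AlgebraicClosure (RatFunc K)))))
  · exact hG θ h
  · refine hF θ ?_
    by_contra h2
    exact h (hθ.2 (Nat.not_odd_iff_even.1 h2))

theorem squareRoots_shift (F : K[X][X]) (μ c : K[X]) (hF : SquareRoots F μ) :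
    SquareRoots (F.comp (X + C c)) μ := by
  intro θ hθ
  set i := algebraMap K[X] (AlgebraicClosure (RatFunc K)) with hi
  have h1 : (F.comp (X + C c)).map i = (F.map i).comp (X + C (i c)) := by
    rw [Polynomial.map_comp, Polynomial.map_add, map_X, map_C]
  have h2 : rootMultiplicity θ ((F.map i).comp (X + C (i c))) =
      rootMultiplicity (θ + i c) (F.map i) := by
    rw [rootMultiplicity_eq_rootMultiplicity (p := (F.map i).comp (X + C (i c))),
      rootMultiplicity_eq_rootMultiplicity (p := F.map i), comp_assoc]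
    congr 2
    simp only [add_comp, X_comp, C_comp, C_add]
    ring
  rw [h1, h2] at hθ
  obtain ⟨s, σ, hσ, h3⟩ := hF _ hθ
  refine ⟨s + algebraMap K[X] (RatFunc K) (μ * c), σ, hσ, ?_⟩
  rw [h3, map_add, ← IsScalarTower.algebraMap_apply K[X] (RatFunc K)
    (AlgebraicClosure (RatFunc K)), map_mul]
  ring

theorem squareRoots_prod {ι : Type} (s : Finset ι) (F : ι → K[X][X]) (μ : K[X])
    (h : ∀ i ∈ s, SquareRoots (F i) μ) : SquareRoots (∏ i ∈ s, F i) μ := by
  classical
  induction s using Finset.induction_on with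
  | empty =>
    intro θ hθ
    exfalso
    rw [Finset.prod_empty, Polynomial.map_one, ← C_1, rootMultiplicity_C] at hθ
    exact Nat.not_odd_zero hθ
  | insert a s ha ih =>
    rw [Finset.prod_insert ha]
    exact squareRoots_mul _ _ _ (h a (Finset.mem_insert_self a s))
      (ih fun i hi => h i (Finset.mem_insert_of_mem hi))

end closure

/-- **Chowla's conjecture with arbitrary inseparable factors, `q` even.** -/
theorem result (K : Type) [Field K] [Fintype K] (hK : Even (Fintype.card K)) :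
    -- (1) weights, polynomial phases, residue classes
    (∀ (F : K[X][X]) (μ : K[X]), derivative F ≠ 0 → μ ≠ 0 → SquareRoots F μ →
      ∀ (s : ℕ) (ε : ℝ), 0 < ε → ∃ N : ℕ, ∀ n : ℕ, N ≤ n → ∀ w : K[X] → ℝ, IsWeight μ w →
        ∀ P : K[X] → ℂ, IsPhase s P → ∀ Q r : K[X], Q ≠ 0 →
          ‖chowlaSum liouville F w P Q r n‖ ≤ ε * (Fintype.card K : ℝ) ^ n ∧
          ‖chowlaSum moebius F w P Q r n‖ ≤ ε * (Fintype.card K : ℝ) ^ n) ∧
    -- (2) products of translates
    (∀ (k : ℕ) (F : Fin k → K[X][X]) (c : Fin k → K[X]) (μ : K[X]), μ ≠ 0 →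
      (∀ j, SquareRoots (F j) μ) → SquareRoots (∏ j, (F j).comp (X + C (c j))) μ ∧
        (derivative (∏ j, (F j).comp (X + C (c j))) ≠ 0 →
          Chowla (∏ j, (F j).comp (X + C (c j))))) ∧
    -- (3) polynomials with the square root property
    (∀ (α β γ : K[X]) (S R h : K[X][X]), α ≠ 0 → β ≠ 0 → R ≠ 0 → h ≠ 0 → derivative h = 0 →
      SquareRoots (h * (C α * S ^ 2 + (C β * X + C γ) * R ^ 2)) (α * β) ∧
      Chowla (h * (C α * S ^ 2 + (C β * X + C γ) * R ^ 2))) ∧
    (∀ (k : ℕ) (α β : Fin k → K[X]) (h : K[X][X]), derivative h = 0 →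
      derivative (h * ∏ j, (C (α j) * X + C (β j))) ≠ 0 →
      SquareRoots (h * ∏ j, (C (α j) * X + C (β j))) 1 ∧
      Chowla (h * ∏ j, (C (α j) * X + C (β j)))) ∧
    (∀ f : K[X], ¬ IsSquare f → ∀ h : K[X][X], h ≠ 0 → derivative h = 0 →
      Chowla (h * f.map C)) ∧
    (∀ α β γ δ : K[X], α ≠ 0 → IsSquare (α * γ) → ∀ h : K[X][X], h ≠ 0 → derivative h = 0 →
      Chowla (h * (C α * X ^ 3 + C β * X ^ 2 + C γ * X + C δ))) := by
  have hchar : CharP K 2 := by
    obtain ⟨p, hp⟩ := CharP.exists K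
    have := hp
    obtain ⟨m, hprime, hcard⟩ := FiniteField.card K p
    rw [hcard] at hK
    have : p = 2 := (Nat.Prime.even_iff hprime).1 (Nat.even_pow.1 hK).1
    rwa [this] at hp
  have hfam : ∀ (α β γ : K[X]) (S R h : K[X][X]), α ≠ 0 → β ≠ 0 → R ≠ 0 → h ≠ 0 →
      derivative h = 0 →
      derivative (h * (C α * S ^ 2 + (C β * X + C γ) * R ^ 2)) ≠ 0 ∧
      SquareRoots (h * (C α * S ^ 2 + (C β * X + C γ) * R ^ 2)) (α * β) :=
    fun α β γ S R h hα hβ hR hh0 hh =>
      Pool.Agent.H140.MH.Roots.fam α β γ S R h hα hβ hR hh0 hh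
  refine ⟨?_, ?_, ?_, ?_, ?_, ?_⟩
  · intro F μ hF hμ hr s ε hε
    exact main K F μ hF hμ hr s ε hε
  · intro k F c μ hμ hF
    have h1 : SquareRoots (∏ j, (F j).comp (X + C (c j))) μ :=
      squareRoots_prod _ _ _ fun j _ => squareRoots_shift _ _ _ (hF j)
    exact ⟨h1, fun hd => chowla K _ μ hd hμ h1⟩
  · intro α β γ S R h hα hβ hR hh0 hh
    obtain ⟨h1, h2⟩ := hfam α β γ S R h hα hβ hR hh0 hh
    exact ⟨h2, chowla K _ (α * β) h1 (mul_ne_zero hα hβ) h2⟩
  · intro k α β h hh hd
    have h1 : SquareRoots (h * ∏ j, (C (α j) * X + C (β j))) 1 :=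
      Pool.Agent.H140.MH.Roots.lin k α β h hh hd
    exact ⟨h1, chowla K _ 1 hd one_ne_zero h1⟩
  · intro f hf h hh0 hh
    obtain ⟨S, R, hR, hSR⟩ := Pool.Agent.H140.MH.Roots.const_form f hf
    rw [hSR]
    obtain ⟨h1, h2⟩ := hfam 1 1 0 S R h one_ne_zero one_ne_zero hR hh0 hh
    exact chowla K _ (1 * 1) h1 (mul_ne_zero one_ne_zero one_ne_zero) h2
  · intro α β γ δ hα hsq h hh0 hh
    obtain ⟨a, b, c, S, R, ha, hb, hR, hSR⟩ := Pool.Agent.H140.MH.Roots.cub_form α β γ δ hα hsq
    obtain ⟨h1, h2⟩ := hfam a b c S R h ha hb hR hh0 hh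
    rw [← hSR] at h1 h2
    have h3 : h * (C (α ^ 2) * (C α * X ^ 3 + C β * X ^ 2 + C γ * X + C δ)) =
        C (α ^ 2) * (h * (C α * X ^ 3 + C β * X ^ 2 + C γ * X + C δ)) := by ring
    rw [h3] at h1 h2
    rw [derivative_C_mul] at h1
    exact chowla K _ (a * b) (right_ne_zero_of_mul h1) (mul_ne_zero ha hb)
      ((Pool.Agent.H140.MH.Roots.sqO_C_mul (α ^ 2) (pow_ne_zero 2 hα) _ _).1 h2)

end Pool.Agent.Results.MP_648c71_nt.AllInseparableFactors
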