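import Pool.Agent.H579.R.MainR
import Pool.Agent.H579.R.LioR
import Pool.Agent.H579.R.Reg

/-!
# Chowla's conjecture for `(q T + b) g(T)`: arbitrary cofactors `g`, every regular slope `q` up to any power of the
length, almost all constant terms `b`

Let `g` be an ARBITRARY integer polynomial (of any degree and height), let `|w t| ≤ 1` be arbitrary weights (for
example the indicator function of an arithmetic progression), and let the slope `q ≤ x ^ (1 - ρ)` be any integer which
is not a multiple of an element of a small set `D` of integers with a large radical; so any integer with a radical at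
most a power of `log x`, for instance `q = 10 ^ m`, is admitted. Then for all but at most `x / (log x) ^ A` of the
constant terms `b ≤ x` the sums of `w(t) λ((q t + b) g(t))` over `t ≤ y` are at most `ε x / q` in absolute value, for
all `y ≤ x / q` at once. The heights of the linear factors are as large as any fixed power of the length `x / q` of the
sum, and every regular slope is admitted (not only almost all).

Method: `λ` is replaced by a weighted sum of `λ(p) λ(n / p)` over the primes `p` in `(x ^ κ₁, x ^ κ₂]`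
(Turan-Kubilius); the additive frequencies near a fraction with denominator `q r` are treated with the characters
modulo `q r`, whose conductors are small or exceptional (large sieve); a conductor with a small radical is not
exceptional (Postnikov's formula and Vinogradov's method, `H567/PP`, `R/BdR`). The same estimate gives the theorem on shifts in
residue classes of `MP_a14ce1_nt.RegularModuliLevelOne`.
-/

set_option autoImplicit false

namespace Pool.Agent.Results.MP_648c71_nt.LargeLinearFactor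

open Finset Polynomial Pool.Agent.H579.L

/-- the radical of `d`: the product of the primes dividing `d` -/
def rad (d : ℕ) : ℕ := ∏ p ∈ d.primeFactors, p

/-- The Liouville function of an integer: `λ(0) = 0` and `λ(n) = (-1) ^ Ω(|n|)` for `n ≠ 0`. -/
noncomputable def liouville (n : ℤ) : ℝ := if n = 0 then 0 else (-1) ^ ArithmeticFunction.cardFactors n.natAbs

lemma liouville_mul (m n : ℤ) : liouville (m * n) = liouville m * liouville n := by
  unfold liouville
  rcases eq_or_ne m 0 with h | h
  · simp [h]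
  rcases eq_or_ne n 0 with h' | h'
  · simp [h']
  rw [if_neg (mul_ne_zero h h'), if_neg h, if_neg h', Int.natAbs_mul,
    ArithmeticFunction.cardFactors_mul (Int.natAbs_ne_zero.2 h) (Int.natAbs_ne_zero.2 h'), pow_add]

lemma liouville_abs (n : ℤ) : |liouville n| ≤ 1 := by
  unfold liouville
  split_ifs
  · simp
  · rw [abs_pow, abs_neg, abs_one, one_pow]

lemma liouville_nat {n : ℕ} (hn : n ≠ 0) : (liouville (n : ℤ) : ℂ) = lio n := by
  unfold liouville
  rw [if_neg (by exact_mod_cast hn), Int.natAbs_natCast, lio_eq hn]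
  push_cast
  rfl

open Classical in
/-- Let `ρ, ε > 0` and `A` be given. There is a `c` such that for all `B` and all large `x` there is a set `D` of at
most `(log x) ^ c` integers with a radical larger than `(log x) ^ B` such that for EVERY integer `1 ≤ q ≤ x ^ (1 - ρ)`
which has a radical `≤ (log x) ^ B` or is not divisible by an element of `D`, for every integer polynomial `g` and all real weights `|w t| ≤ 1` all but at most
`x / (log x) ^ A` of the integers `1 ≤ b ≤ x` satisfy
`|∑ t ≤ y, w(t) λ((q t + b) g(t))| ≤ ε x / q` for all `y ≤ x / q`. -/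
theorem result (ρ ε : ℝ) (hρ : 0 < ρ) (hε : 0 < ε) (A : ℕ) :
    ∃ c : ℕ, ∀ B : ℕ, ∃ x₀ : ℕ, ∀ x : ℕ, x₀ ≤ x →
    ∃ D : Finset ℕ, (D.card : ℝ) ≤ Real.log x ^ c ∧ (∀ d ∈ D, Real.log x ^ B < (rad d : ℝ)) ∧
    ∀ q : ℕ, 1 ≤ q → (q : ℝ) ≤ (x : ℝ) ^ (1 - ρ) → ((rad q : ℝ) ≤ Real.log x ^ B ∨ ∀ d ∈ D, ¬ d ∣ q) →
    ∀ g : ℤ[X], ∀ w : ℕ → ℝ, (∀ t, |w t| ≤ 1) →
      (((Icc 1 x).filter (fun b : ℕ => ∃ y : ℕ, q * y ≤ x ∧
        ε * (x / q) < |∑ t ∈ Icc 1 y, w t * liouville (((C (q : ℤ) * X + C (b : ℤ)) * g).eval (t : ℤ))|)).card : ℝ) ≤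
          x / Real.log x ^ A := by
  obtain ⟨η, hη⟩ : ∃ η : ℝ, η = min ε 1 := ⟨_, rfl⟩
  have hη0 : 0 < η := by
    rw [hη]
    exact lt_min (by positivity) (by norm_num)
  have hη1 : η ≤ 1 := by
    rw [hη]
    exact min_le_right _ _
  have hηε : η ≤ ε := by
    rw [hη]
    exact min_le_left _ _
  obtain ⟨c, hc⟩ := Pool.Agent.H579.R.gen_mainR (ρ := min ρ (1 / 2)) (ε := η) A (lt_min hρ (by norm_num))
    (lt_of_le_of_lt (min_le_right _ _) (by norm_num)) hη0 hη1
  refine ⟨c, fun B => ?_⟩
  obtain ⟨K, U, x₀, h⟩ := hc B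
  obtain ⟨N₀, hN⟩ := sw_of_sup (F := lio) cm_lio.bd sup_lio K U
  refine ⟨max (max x₀ N₀) 1, fun x hx => ?_⟩
  have hx₀ : x₀ ≤ x := le_trans (le_trans (le_max_left _ _) (le_max_left _ _)) hx
  have hxN : N₀ ≤ 2 * x := by
    have : N₀ ≤ x := le_trans (le_trans (le_max_right _ _) (le_max_left _ _)) hx
    omega
  have hx1 : 1 ≤ x := le_trans (le_max_right _ _) hx
  have hx0 : (0 : ℝ) < x := by exact_mod_cast hx1
  have hxr1 : (1 : ℝ) ≤ x := by exact_mod_cast hx1
  obtain ⟨D, hD1, hD2, hD3⟩ := h x hx₀ lio cm_lio Pool.Agent.H579.R.cp_lio (hN (2 * x) hxN)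
  refine ⟨D, hD1, hD2, fun q hq1 hq hqD' g w hw => ?_⟩
  have hqD : ∀ d ∈ D, ¬ d ∣ q := Pool.Agent.H579.R.reg_of_rad hq1 hD2 hqD'
  have hq0 : (0 : ℝ) < q := by exact_mod_cast hq1
  have hD4 := hD3 q hq1 (hq.trans (Real.rpow_le_rpow_of_exponent_le hxr1 (by
    have := min_le_left ρ (1 / 2)
    linarith))) hqD (fun t => ((w t * liouville (g.eval (t : ℤ)) : ℝ) : ℂ)) (fun t => by
      rw [Complex.norm_real, Real.norm_eq_abs, abs_mul]
      exact mul_le_one₀ (hw t) (abs_nonneg _) (liouville_abs _))
  refine le_trans (Nat.cast_le.2 (card_le_card ?_)) hD4.2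
  intro b hb
  rw [mem_filter] at hb ⊢
  obtain ⟨hb1, y, hy, hb3⟩ := hb
  refine ⟨hb1, fun hall => ?_⟩
  have h3 := hall y hy
  have h4 : ∑ m ∈ Icc 1 y, ((w m * liouville (g.eval (m : ℤ)) : ℝ) : ℂ) * lio (q * m + b) =
      ((∑ t ∈ Icc 1 y, w t * liouville (((C (q : ℤ) * X + C (b : ℤ)) * g).eval (t : ℤ)) : ℝ) : ℂ) := by
    rw [Complex.ofReal_sum]
    refine sum_congr rfl fun n hn => ?_
    rw [mem_Icc] at hn
    rw [mem_Icc] at hb1
    have h5 : (((C (q : ℤ) * X + C (b : ℤ)) * g).eval (n : ℤ)) = ((q * n + b : ℕ) : ℤ) * g.eval (n : ℤ) := by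
      simp
    rw [h5, liouville_mul]
    push_cast [← liouville_nat (n := q * n + b) (by omega)]
    ring
  rw [h4, Complex.norm_real, Real.norm_eq_abs] at h3
  have h5 : η * ((x : ℝ) / q) ≤ ε * (x / q) := by gcongr
  linarith

end Pool.Agent.Results.MP_648c71_nt.LargeLinearFactor
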