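import Mathlib
import Pool.Agent.H140.MH.Loc2
import Pool.Agent.H140.MH.Uni

/-!
# Local Gowers norms of the Liouville function at polynomials over `F_q[X]`, `q` even: a dichotomy

Let `K` be a finite field with an even number `q` of elements and `F ∈ K[X][T]`, `F ≠ 0`.

(A) If `dF/dT ≠ 0` (and the roots of odd multiplicity of `F` have the square root property of
`MP_648c71_nt.AllInseparableFactors`), then the local Gowers norms of `a ↦ λ(F(a))` of ALL orders and in
all directions tend to zero: the mean of `∏_{B ⊆ {1, …, k}} λ(F(a + Q ∑_{j ∈ B} t_j))` over the monic `a`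
of degree `n → ∞` and the `t_j` of degree less than `M` is `o(1)` for `M → ∞`.

(B) If `dF/dT = 0`, that is for ANY polynomial `h` in `T ^ 2`, the function `a ↦ λ(h(a))` is a polynomial
phase of bounded degree near almost every `a`: there is a number `k₀`, which depends on `h` only, and
for every `ε > 0` some `Q ≠ 0` such that for `k ≥ k₀`, every `M` and all large `n`, for all but
`ε q ^ n` of the monic `a` of degree `n`, the product of `λ(h(a + Q ∑_{j ∈ B} t_j))` over all
`B ⊆ {1, …, k}` is `1`, for ALL `t_1, …, t_k` of degree at most `M`; so the local Gowers norms of order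
`k ≥ k₀` are at least `1 - ε`.  And Chowla's conjecture over `F_q[X]` fails for products of translates
of `h`: for every `ε > 0` there are `2 ^ k₀` translates of `h`, pairwise coprime over `K(X)`, whose
product `H` is squarefree over `K(X)` if `h` is, such that the mean of `λ(H(a))` is at least `1 - ε`.

Idea.  Up to squares `h = U ^ 2 + X V ^ 2` with `u U + v V = r`, `r ∈ K[X]`.  The parity of the number of
prime factors of `G = A ^ 2 + X B ^ 2` (`A`, `B` coprime) is given by an explicit differential: the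
residues at `B = 0` and at infinity of rational functions of `A`, `A'`, `B`, `B'` and of the inverse
of `A` modulo `B ^ 2` (Swan's theorem for a lift to the Witt vectors).  For `A = U(a)`, `B = V(a)` the
inverse can be replaced by `u(a) ^ 2 U(a) / r ^ 2`, up to residues at `r = 0` and at infinity; the
residues at `r = 0` only depend on a residue class, and the residues at infinity of rational functions
of `a`, `a'` are polynomial phases in short windows, as the degrees fall.
-/

namespace Pool.Agent.Results.MP_648c71_nt.LocalGowersDichotomy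

open Polynomial

open Classical in
/-- The Liouville function of `K[X]`: `(-1) ^ k` if `F` is a nonzero constant times a product of `k`
monic irreducible polynomials, counted with multiplicity, and `0` for `F = 0`. -/
noncomputable def liouville {K : Type} [Field K] (F : K[X]) : ℤ :=
  if F = 0 then 0 else (-1) ^ Multiset.card (UniqueFactorizationMonoid.factors F)

/-- The function `s ↦ λ(h(a + Q s))` is a polynomial phase of degree less than `k` on the polynomials of
degree at most `M`: the product over every cube of dimension `k` is equal to `1`. -/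
def IsPhaseAt {K : Type} [Field K] (h : K[X][X]) (k M : ℕ) (Q a : K[X]) : Prop :=
  ∀ t : Fin k → K[X], (∀ j, (t j).natDegree ≤ M) →
    ∏ B : Finset (Fin k), liouville (h.eval (a + Q * ∑ j ∈ B, t j)) = 1

/-- The mean, over the monic `a` of degree `n` and over the `t_1, …, t_k` of degree less than `M`, of the
product of the `λ(F(a + Q ∑_{j ∈ B} t_j))` over all `B ⊆ {1, …, k}`. -/
noncomputable def localGowers {K : Type} [Field K] [Fintype K] (F : K[X][X]) (k M : ℕ) (Q : K[X])
    (n : ℕ) : ℝ :=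
  (∑ᶠ t ∈ {t : Fin k → K[X] | ∀ j, (t j).degree < (M : WithBot ℕ)},
    ∑ᶠ a ∈ {a : K[X] | a.Monic ∧ a.natDegree = n},
      ∏ B : Finset (Fin k), (liouville (F.eval (a + Q * ∑ j ∈ B, t j)) : ℝ)) /
    ((Fintype.card K : ℝ) ^ (k * M) * (Fintype.card K : ℝ) ^ n)

/-- For every root `θ` of odd multiplicity of `F` in an algebraic closure of `K(X)`, the product `μ θ`
is the difference of the square of an element separable over `K(X)` and an element of `K(X)`. -/
def SquareRoots {K : Type} [Field K] (F : K[X][X]) (μ : K[X]) : Prop :=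
  ∀ θ : AlgebraicClosure (RatFunc K),
    Odd (rootMultiplicity θ (F.map (algebraMap K[X] (AlgebraicClosure (RatFunc K))))) →
    ∃ (s : RatFunc K) (σ : AlgebraicClosure (RatFunc K)), IsSeparable (RatFunc K) σ ∧
      σ ^ 2 = algebraMap K[X] (AlgebraicClosure (RatFunc K)) μ * θ +
        algebraMap (RatFunc K) (AlgebraicClosure (RatFunc K)) s

/-- The mean value of `λ(F(a))` over the monic `a` of degree `n`. -/
noncomputable def mean {K : Type} [Field K] [Fintype K] (F : K[X][X]) (n : ℕ) : ℝ :=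
  (∑ᶠ a ∈ {a : K[X] | a.Monic ∧ a.natDegree = n}, (liouville (F.eval a) : ℝ)) /
    (Fintype.card K : ℝ) ^ n

section aux

variable {K : Type} [Field K]

theorem liouville_mul (F G : K[X]) : liouville (F * G) = liouville F * liouville G :=
  Pool.Agent.H140.Q.FinM.liou_mul F G

theorem liouville_prod {ι : Type} (s : Finset ι) (F : ι → K[X]) :
    liouville (∏ i ∈ s, F i) = ∏ i ∈ s, liouville (F i) := by
  classical
  induction s using Finset.induction_on with
  | empty =>
    rw [Finset.prod_empty, Finset.prod_empty]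
    exact Pool.Agent.H140.Q.FinM.liou_unit isUnit_one
  | insert a s ha ih =>
    rw [Finset.prod_insert ha, Finset.prod_insert ha, ← ih]
    exact liouville_mul _ _

theorem inj1 : Function.Injective (algebraMap K[X] (AlgebraicClosure (RatFunc K))) := by
  rw [IsScalarTower.algebraMap_eq K[X] (RatFunc K) (AlgebraicClosure (RatFunc K))]
  exact (algebraMap (RatFunc K) (AlgebraicClosure (RatFunc K))).injective.comp
    (IsFractionRing.injective K[X] (RatFunc K))

/-- large shifts are not differences of roots -/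
theorem exists_bound (h : K[X][X]) (h0 : h ≠ 0) : ∃ L : ℕ, ∀ c : K[X], L ≤ c.natDegree → ∀ θ :
    AlgebraicClosure (RatFunc K), aeval θ h = 0 →
      aeval (θ + algebraMap K[X] (AlgebraicClosure (RatFunc K)) c) h ≠ 0 := by
  set i := algebraMap K[X] (AlgebraicClosure (RatFunc K)) with hi
  have hne : h.map i ≠ 0 := by rwa [Polynomial.map_ne_zero_iff inj1]
  have hfin : {θ : AlgebraicClosure (RatFunc K) | aeval θ h = 0}.Finite := by
    refine (Polynomial.finite_setOfPred_isRoot hne).subset ?_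
    intro θ hθ
    rw [Set.mem_ofPred_eq, IsRoot.def, eval_map_algebraMap]
    exact hθ
  have hE : {c : K[X] | ∃ θ : AlgebraicClosure (RatFunc K), aeval θ h = 0 ∧
      aeval (θ + i c) h = 0}.Finite := by
    have h1 : (Set.image2 (fun x y => y - x) {θ : AlgebraicClosure (RatFunc K) | aeval θ h = 0}
        {θ : AlgebraicClosure (RatFunc K) | aeval θ h = 0}).Finite := hfin.image2 _ hfin
    refine (h1.preimage (inj1 (K := K)).injOn).subset ?_
    rintro c ⟨θ, h2, h3⟩
    exact ⟨θ, h2, θ + i c, h3, by rw [hi]; ring⟩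
  refine ⟨(hE.toFinset.sup natDegree) + 1, fun c hc θ h2 h3 => ?_⟩
  have h4 : c ∈ hE.toFinset := by
    rw [Set.Finite.mem_toFinset]
    exact ⟨θ, h2, h3⟩
  have := Finset.le_sup (f := natDegree) h4
  omega

theorem localGowers_eq [Fintype K] (F : K[X][X]) (k M : ℕ) (Q : K[X]) (n : ℕ) :
    localGowers F k M Q n =
      (∑ t ∈ Fintype.piFinset (fun _ : Fin k => Pool.Agent.H251.SP.TII.Pl K M),
        ∑ a ∈ Pool.Agent.H694.Typ.Mn K n, ∏ B : Finset (Fin k),
          (Pool.Agent.H140.Q.liou (F.eval (a + Q * ∑ j ∈ B, t j)) : ℝ)) /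
        ((Fintype.card K : ℝ) ^ (k * M) * (Fintype.card K : ℝ) ^ n) := by
  have h1 : {t : Fin k → K[X] | ∀ j, (t j).degree < (M : WithBot ℕ)} =
      ↑(Fintype.piFinset (fun _ : Fin k => Pool.Agent.H251.SP.TII.Pl K M)) := by
    ext t
    rw [Finset.mem_coe, Set.mem_ofPred_eq, Fintype.mem_piFinset]
    exact forall_congr' fun j => Pool.Agent.H251.SP.TII.mem_Pl.symm
  have h2 : {a : K[X] | a.Monic ∧ a.natDegree = n} = ↑(Pool.Agent.H694.Typ.Mn K n) := by
    ext a
    rw [Finset.mem_coe, Set.mem_ofPred_eq, Pool.Agent.H694.Typ.mem_Mn]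
  unfold localGowers
  rw [h1, finsum_mem_coe_finset]
  congr 1
  refine Finset.sum_congr rfl fun t _ => ?_
  rw [h2, finsum_mem_coe_finset]
  rfl

end aux

/-- **Local polynomial phases**: the inseparable case. -/
theorem phases (K : Type) [Field K] [Fintype K] (hK : Even (Fintype.card K)) (h : K[X][X])
    (h0 : h ≠ 0) (hd : derivative h = 0) :
    ∃ k₀ : ℕ, 1 ≤ k₀ ∧
    -- (1) almost everywhere the values are a local polynomial phase of degree less than `k₀`
    (∀ ε : ℝ, 0 < ε → ∃ Q : K[X], Q ≠ 0 ∧ ∀ k : ℕ, k₀ ≤ k → ∀ M : ℕ, ∃ N : ℕ, ∀ n : ℕ, N ≤ n →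
      ({a : K[X] | a.Monic ∧ a.natDegree = n ∧ ¬ IsPhaseAt h k M Q a}.ncard : ℝ) ≤
        ε * (Fintype.card K : ℝ) ^ n ∧ 1 - ε ≤ localGowers h k M Q n) ∧
    -- (2) products of pairwise coprime translates
    (∀ ε : ℝ, 0 < ε → ∃ c : Finset (Fin k₀) → K[X], Function.Injective c ∧
      (∀ B B' : Finset (Fin k₀), B ≠ B' →
        IsCoprime ((h.comp (X + C (c B))).map (algebraMap K[X] (RatFunc K)))
          ((h.comp (X + C (c B'))).map (algebraMap K[X] (RatFunc K)))) ∧
      (Squarefree (h.map (algebraMap K[X] (RatFunc K))) →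
        Squarefree ((∏ B, h.comp (X + C (c B))).map (algebraMap K[X] (RatFunc K)))) ∧
      ∃ N : ℕ, ∀ n : ℕ, N ≤ n → 1 - ε ≤ mean (∏ B, h.comp (X + C (c B))) n) := by
  classical
  have hchar : CharP K 2 := by
    obtain ⟨p, hp⟩ := CharP.exists K
    have := hp
    obtain ⟨m, hprime, hcard⟩ := FiniteField.card K p
    rw [hcard] at hK
    have : p = 2 := (Nat.Prime.even_iff hprime).1 (Nat.even_pow.1 hK).1
    rwa [this] at hp
  have hiff : ∀ (k M : ℕ) (Q a : K[X]), IsPhaseAt h k M Q a ↔
      ∀ t : Fin k → K[X], (∀ j, (t j).natDegree ≤ M) →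
        ∏ B : Finset (Fin k), (Pool.Agent.H140.Q.liou (h.eval (a + Q * ∑ j ∈ B, t j)) : ℝ) = 1 := by
    intro k M Q a
    refine forall_congr' fun t => forall_congr' fun _ => ?_
    rw [show (∏ B : Finset (Fin k), (Pool.Agent.H140.Q.liou
      (h.eval (a + Q * ∑ j ∈ B, t j)) : ℝ)) = ((∏ B : Finset (Fin k), liouville
        (h.eval (a + Q * ∑ j ∈ B, t j)) : ℤ) : ℝ) by push_cast; rfl]
    norm_cast
  have hset : ∀ n : ℕ, {a : K[X] | a.Monic ∧ a.natDegree = n} =
      ↑(Pool.Agent.H694.Typ.Mn K n) := by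
    intro n
    ext a
    rw [Finset.mem_coe, Set.mem_ofPred_eq, Pool.Agent.H694.Typ.mem_Mn]
  have hset2 : ∀ (k M n : ℕ) (Q : K[X]),
      {a : K[X] | a.Monic ∧ a.natDegree = n ∧ ¬ IsPhaseAt h k M Q a} =
      ↑((Pool.Agent.H694.Typ.Mn K n).filter (fun a => ¬ ∀ t : Fin k → K[X],
        (∀ j, (t j).natDegree ≤ M) → ∏ B : Finset (Fin k),
          (Pool.Agent.H140.Q.liou (h.eval (a + Q * ∑ j ∈ B, t j)) : ℝ) = 1)) := by
    intro k M n Q
    ext a
    rw [Finset.coe_filter, Set.mem_ofPred_eq, Set.mem_ofPred_eq, Pool.Agent.H694.Typ.mem_Mn, hiff]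
    tauto
  obtain ⟨k₁, hk₁⟩ := Pool.Agent.H140.MH.loc2 K h h0 hd
  obtain ⟨k, hk⟩ : ∃ k : ℕ, k = k₁ + 1 := ⟨_, rfl⟩
  have hmain : ∀ ε : ℝ, 0 < ε → ∃ Q : K[X], Q ≠ 0 ∧ ∀ k' : ℕ, k ≤ k' → ∀ M : ℕ,
      ∃ N : ℕ, ∀ n : ℕ, N ≤ n →
      ({a : K[X] | a.Monic ∧ a.natDegree = n ∧ ¬ IsPhaseAt h k' M Q a}.ncard : ℝ) ≤
        ε * (Fintype.card K : ℝ) ^ n := by
    intro ε hε
    obtain ⟨Q, hQ, h1⟩ := hk₁ ε hε
    refine ⟨Q, hQ, fun k' hk' M => ?_⟩
    obtain ⟨N, hN⟩ := h1 k' (by omega) M
    refine ⟨N, fun n hn => ?_⟩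
    rw [hset2, Set.ncard_coe_finset]
    exact hN n hn
  have hgow : ∀ (ε : ℝ) (Q : K[X]) (k' M n : ℕ),
      ({a : K[X] | a.Monic ∧ a.natDegree = n ∧ ¬ IsPhaseAt h k' M Q a}.ncard : ℝ) ≤
        ε / 2 * (Fintype.card K : ℝ) ^ n → 1 - ε ≤ localGowers h k' M Q n := by
    intro ε Q k' M n hbad
    rw [hset2, Set.ncard_coe_finset] at hbad
    have hq : (0 : ℝ) < (Fintype.card K : ℝ) := by exact_mod_cast Fintype.card_pos
    have hqn : (0 : ℝ) < (Fintype.card K : ℝ) ^ n := by positivity
    have hqk : (0 : ℝ) < (Fintype.card K : ℝ) ^ (k' * M) := by positivity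
    rw [localGowers_eq, le_div_iff₀ (by positivity)]
    set Bad : K[X] → Prop := fun a => ¬ ∀ t : Fin k' → K[X],
        (∀ j, (t j).natDegree ≤ M) → ∏ B : Finset (Fin k'),
          (Pool.Agent.H140.Q.liou (h.eval (a + Q * ∑ j ∈ B, t j)) : ℝ) = 1 with hBad
    have hTc : ((Fintype.piFinset (fun _ : Fin k' => Pool.Agent.H251.SP.TII.Pl K M)).card : ℝ) =
        (Fintype.card K : ℝ) ^ (k' * M) := by
      rw [Fintype.card_piFinset, Finset.prod_const, Finset.card_univ, Fintype.card_fin,
        Pool.Agent.H251.SP.TII.card_Pl, ← pow_mul, mul_comm]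
      push_cast
      rfl
    have hone : ∀ t ∈ Fintype.piFinset (fun _ : Fin k' => Pool.Agent.H251.SP.TII.Pl K M),
        (1 - ε) * (Fintype.card K : ℝ) ^ n ≤ ∑ a ∈ Pool.Agent.H694.Typ.Mn K n,
          ∏ B : Finset (Fin k'),
            (Pool.Agent.H140.Q.liou (h.eval (a + Q * ∑ j ∈ B, t j)) : ℝ) := by
      intro t ht
      rw [Fintype.mem_piFinset] at ht
      have ht2 : ∀ j, (t j).natDegree ≤ M := fun j =>
        natDegree_le_of_degree_le (Pool.Agent.H251.SP.TII.mem_Pl.1 (ht j)).le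
      have hval : ∀ a : K[X], ((1 : ℝ) - (if Bad a then 2 else 0)) ≤
          ∏ B : Finset (Fin k'),
            (Pool.Agent.H140.Q.liou (h.eval (a + Q * ∑ j ∈ B, t j)) : ℝ) := by
        intro a
        by_cases hb : Bad a
        · rw [if_pos hb]
          have h2 : |∏ B : Finset (Fin k'),
              (Pool.Agent.H140.Q.liou (h.eval (a + Q * ∑ j ∈ B, t j)) : ℝ)| ≤ 1 := by
            rw [Finset.abs_prod]
            exact Finset.prod_le_one (fun _ _ => abs_nonneg _)
              fun _ _ => Pool.Agent.H140.Q.FinM.abs_liou _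
          linarith [(abs_le.1 h2).1]
        · rw [if_neg hb, sub_zero]
          have h2 : ∀ t : Fin k' → K[X], (∀ j, (t j).natDegree ≤ M) →
              ∏ B : Finset (Fin k'),
                (Pool.Agent.H140.Q.liou (h.eval (a + Q * ∑ j ∈ B, t j)) : ℝ) = 1 := not_not.1 hb
          rw [h2 t ht2]
      have hsum : ∑ a ∈ Pool.Agent.H694.Typ.Mn K n, ((1 : ℝ) - (if Bad a then 2 else 0)) =
          (Fintype.card K : ℝ) ^ n -
            2 * (((Pool.Agent.H694.Typ.Mn K n).filter Bad).card : ℝ) := by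
        rw [Finset.sum_sub_distrib, Finset.sum_const, Pool.Agent.H694.Typ.card_Mn, nsmul_eq_mul,
          mul_one, ← Finset.sum_filter, Finset.sum_const, nsmul_eq_mul]
        push_cast
        ring
      have h5 := Finset.sum_le_sum (s := Pool.Agent.H694.Typ.Mn K n) fun a _ => hval a
      rw [hsum] at h5
      refine le_trans ?_ h5
      have h6 : (((Pool.Agent.H694.Typ.Mn K n).filter Bad).card : ℝ) ≤
          ε / 2 * (Fintype.card K : ℝ) ^ n := hbad
      linarith
    refine le_trans (le_of_eq ?_) (Finset.sum_le_sum hone)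
    rw [Finset.sum_const, nsmul_eq_mul, hTc]
    ring
  refine ⟨k, by omega, fun ε hε => ?_, fun ε hε => ?_⟩
  · obtain ⟨Q, hQ, h1⟩ := hmain (ε / 2) (by positivity)
    refine ⟨Q, hQ, fun k' hk' M => ?_⟩
    obtain ⟨N, hN⟩ := h1 k' hk' M
    refine ⟨N, fun n hn => ⟨?_, hgow ε Q k' M n (hN n hn)⟩⟩
    refine (hN n hn).trans ?_
    have hqn : (0 : ℝ) ≤ (Fintype.card K : ℝ) ^ n := by positivity
    nlinarith
  obtain ⟨Q, hQ, h1⟩ := hmain (ε / 2) (by positivity)
  obtain ⟨L, hL⟩ := exists_bound h h0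
  obtain ⟨t, ht⟩ : ∃ t : Fin k → K[X], t = fun (j : Fin k) => (X : K[X]) ^ (L + (j : ℕ)) :=
    ⟨_, rfl⟩
  obtain ⟨c, hc⟩ : ∃ c : Finset (Fin k) → K[X], c = fun B => Q * ∑ j ∈ B, t j := ⟨_, rfl⟩
  have hcB : ∀ B, c B = Q * ∑ j ∈ B, t j := fun B => by rw [hc]
  -- the differences of the shifts
  have hcoef : ∀ (B : Finset (Fin k)) (j : Fin k), (∑ l ∈ B, t l).coeff (L + (j : ℕ)) =
      if j ∈ B then 1 else 0 := by
    intro B j
    rw [finsetSum_coeff, ht]
    simp only [coeff_X_pow]
    rw [← Finset.sum_ite_eq B j (fun _ => (1 : K))]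
    refine Finset.sum_congr rfl fun l _ => ?_
    by_cases hl : j = l
    · rw [hl]
      simp
    · rw [if_neg, if_neg hl]
      intro h2
      exact hl (Fin.ext (by omega))
  have hdiff : ∀ B B' : Finset (Fin k), B ≠ B' → L ≤ (c B - c B').natDegree ∧ c B - c B' ≠ 0 := by
    intro B B' hBB
    have h2 : ∑ j ∈ B, t j - ∑ j ∈ B', t j ≠ 0 := by
      intro h3
      apply hBB
      ext j
      have h4 := congrArg (fun p : K[X] => p.coeff (L + (j : ℕ))) h3
      simp only [coeff_sub, coeff_zero, hcoef] at h4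
      by_cases hj : j ∈ B
      · by_cases hj' : j ∈ B'
        · exact ⟨fun _ => hj', fun _ => hj⟩
        · rw [if_pos hj, if_neg hj', sub_zero] at h4
          exact absurd h4 one_ne_zero
      · by_cases hj' : j ∈ B'
        · rw [if_neg hj, if_pos hj', zero_sub] at h4
          exact absurd (neg_eq_zero.1 h4) one_ne_zero
        · exact ⟨fun h => absurd h hj, fun h => absurd h hj'⟩
    have h3 : X ^ L ∣ ∑ j ∈ B, t j - ∑ j ∈ B', t j := by
      refine dvd_sub (Finset.dvd_sum fun j _ => ?_) (Finset.dvd_sum fun j _ => ?_) <;>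
      · rw [ht]
        exact pow_dvd_pow X (Nat.le_add_right _ _)
    have h4 : c B - c B' = Q * (∑ j ∈ B, t j - ∑ j ∈ B', t j) := by
      rw [hcB, hcB]
      ring
    have h5 : L ≤ (∑ j ∈ B, t j - ∑ j ∈ B', t j).natDegree := by
      have := natDegree_le_of_dvd h3 h2
      rwa [natDegree_X_pow] at this
    rw [h4]
    refine ⟨?_, mul_ne_zero hQ h2⟩
    rw [natDegree_mul hQ h2]
    omega
  have hcop : ∀ B B' : Finset (Fin k), B ≠ B' →
      IsCoprime ((h.comp (X + C (c B))).map (algebraMap K[X] (RatFunc K)))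
        ((h.comp (X + C (c B'))).map (algebraMap K[X] (RatFunc K))) := by
    intro B B' hBB
    refine (Polynomial.isCoprime_iff_aeval_ne_zero_of_isAlgClosed (k := RatFunc K)
      (AlgebraicClosure (RatFunc K)) _ _).2 fun θ => ?_
    by_contra hcon
    push Not at hcon
    obtain ⟨h2, h3⟩ := hcon
    rw [aeval_map_algebraMap, aeval_comp, map_add, aeval_X, aeval_C] at h2 h3
    refine hL (c B' - c B) ?_ _ h2 ?_
    · exact (hdiff B' B (Ne.symm hBB)).1
    · rw [map_sub]
      rw [show θ + algebraMap K[X] (AlgebraicClosure (RatFunc K)) (c B) +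
        (algebraMap K[X] (AlgebraicClosure (RatFunc K)) (c B') -
          algebraMap K[X] (AlgebraicClosure (RatFunc K)) (c B)) =
        θ + algebraMap K[X] (AlgebraicClosure (RatFunc K)) (c B') by ring]
      exact h3
  refine ⟨c, ?_, hcop, ?_, ?_⟩
  · intro B B' hBB
    by_contra hne
    exact (hdiff B B' hne).2 (by rw [hBB, sub_self])
  · intro hsq
    rw [Polynomial.map_prod]
    refine Finset.squarefree_prod_of_pairwise_isCoprime (fun B _ B' _ hBB => (hcop B B' hBB).isRelPrime) ?_
    intro B _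
    have h2 : (h.comp (X + C (c B))).map (algebraMap K[X] (RatFunc K)) =
        taylorEquiv (algebraMap K[X] (RatFunc K) (c B)) (h.map (algebraMap K[X] (RatFunc K))) := by
      rw [Polynomial.map_comp, Polynomial.map_add, map_X, map_C]
      rfl
    rw [h2]
    intro y hy
    have h3 := map_dvd (taylorEquiv (algebraMap K[X] (RatFunc K) (c B))).symm hy
    rw [map_mul, AlgEquiv.symm_apply_apply] at h3
    have h4 := hsq _ h3
    exact (MulEquiv.isUnit_map
      (taylorEquiv (algebraMap K[X] (RatFunc K) (c B))).symm.toMulEquiv).1 h4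
  · obtain ⟨N, hN⟩ := h1 k le_rfl (L + k)
    refine ⟨N, fun n hn => ?_⟩
    have hbad := hN n hn
    rw [hset2, Set.ncard_coe_finset] at hbad
    have hq : (0 : ℝ) < (Fintype.card K : ℝ) ^ n := by
      have : 0 < Fintype.card K := Fintype.card_pos
      positivity
    rw [mean, hset, finsum_mem_coe_finset, le_div_iff₀ hq]
    set Bad : K[X] → Prop := fun a => ¬ ∀ t : Fin k → K[X],
        (∀ j, (t j).natDegree ≤ L + k) → ∏ B : Finset (Fin k),
          (Pool.Agent.H140.Q.liou (h.eval (a + Q * ∑ j ∈ B, t j)) : ℝ) = 1 with hBad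
    have hval : ∀ a : K[X], ((1 : ℝ) - (if Bad a then 2 else 0)) ≤
        (liouville ((∏ B, h.comp (X + C (c B))).eval a) : ℝ) := by
      intro a
      by_cases hb : Bad a
      · rw [if_pos hb]
        have h2 := abs_le.1 (Pool.Agent.H140.Q.FinM.abs_liou
          ((∏ B, h.comp (X + C (c B))).eval a))
        have h3 : (liouville ((∏ B, h.comp (X + C (c B))).eval a) : ℝ) =
          (Pool.Agent.H140.Q.liou ((∏ B, h.comp (X + C (c B))).eval a) : ℝ) := rfl
        rw [h3]
        linarith [h2.1]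
      · rw [if_neg hb, sub_zero]
        have h2 : ∀ t : Fin k → K[X], (∀ j, (t j).natDegree ≤ L + k) →
            ∏ B : Finset (Fin k),
              (Pool.Agent.H140.Q.liou (h.eval (a + Q * ∑ j ∈ B, t j)) : ℝ) = 1 := not_not.1 hb
        have h3 := h2 t (fun j => by
          rw [ht]
          show (X ^ (L + (j : ℕ)) : K[X]).natDegree ≤ L + k
          rw [natDegree_X_pow]
          have := j.2
          omega)
        have h4 : (liouville ((∏ B, h.comp (X + C (c B))).eval a) : ℝ) =
            ∏ B : Finset (Fin k),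
              (Pool.Agent.H140.Q.liou (h.eval (a + Q * ∑ j ∈ B, t j)) : ℝ) := by
          rw [eval_prod, liouville_prod, Int.cast_prod]
          refine Finset.prod_congr rfl fun B _ => ?_
          rw [eval_comp, eval_add, eval_X, eval_C, hcB]
          rfl
        rw [h4, h3]
    have hsum : ∑ a ∈ Pool.Agent.H694.Typ.Mn K n, ((1 : ℝ) - (if Bad a then 2 else 0)) =
        (Fintype.card K : ℝ) ^ n -
          2 * (((Pool.Agent.H694.Typ.Mn K n).filter Bad).card : ℝ) := by
      rw [Finset.sum_sub_distrib, Finset.sum_const, Pool.Agent.H694.Typ.card_Mn, nsmul_eq_mul,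
        mul_one, ← Finset.sum_filter, Finset.sum_const, nsmul_eq_mul]
      push_cast
      ring
    have h5 : ∑ a ∈ Pool.Agent.H694.Typ.Mn K n, ((1 : ℝ) - (if Bad a then 2 else 0)) ≤
        ∑ a ∈ Pool.Agent.H694.Typ.Mn K n,
          (liouville ((∏ B, h.comp (X + C (c B))).eval a) : ℝ) :=
      Finset.sum_le_sum fun a _ => hval a
    rw [hsum] at h5
    refine le_trans ?_ h5
    have h6 : (((Pool.Agent.H694.Typ.Mn K n).filter Bad).card : ℝ) ≤
        ε / 2 * (Fintype.card K : ℝ) ^ n := hbad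
    linarith

/-- **Dichotomy for the local Gowers norms** of the Liouville function at the values of polynomials
over `F_q[X]`, `q` even. -/
theorem result (K : Type) [Field K] [Fintype K] (hK : Even (Fintype.card K)) :
    -- (A) the local Gowers norms of all orders tend to zero if `dF/dT ≠ 0`
    (∀ (F : K[X][X]) (μ : K[X]), derivative F ≠ 0 → μ ≠ 0 → SquareRoots F μ →
      ∀ (k : ℕ) (Q : K[X]), Q ≠ 0 → ∀ ε : ℝ, 0 < ε → ∃ M₀ : ℕ, ∀ M : ℕ, M₀ ≤ M → ∃ N : ℕ,
        ∀ n : ℕ, N ≤ n → |localGowers F k M Q n| ≤ ε) ∧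
    -- (B) local polynomial phases if `dh/dT = 0`
    ∀ h : K[X][X], h ≠ 0 → derivative h = 0 → ∃ k₀ : ℕ, 1 ≤ k₀ ∧
      -- (1) almost everywhere the values are a local polynomial phase of degree less than `k₀`
      (∀ ε : ℝ, 0 < ε → ∃ Q : K[X], Q ≠ 0 ∧ ∀ k : ℕ, k₀ ≤ k → ∀ M : ℕ, ∃ N : ℕ,
        ∀ n : ℕ, N ≤ n →
          ({a : K[X] | a.Monic ∧ a.natDegree = n ∧ ¬ IsPhaseAt h k M Q a}.ncard : ℝ) ≤
            ε * (Fintype.card K : ℝ) ^ n ∧ 1 - ε ≤ localGowers h k M Q n) ∧
      -- (2) products of pairwise coprime translates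
      (∀ ε : ℝ, 0 < ε → ∃ c : Finset (Fin k₀) → K[X], Function.Injective c ∧
        (∀ B B' : Finset (Fin k₀), B ≠ B' →
          IsCoprime ((h.comp (X + C (c B))).map (algebraMap K[X] (RatFunc K)))
            ((h.comp (X + C (c B'))).map (algebraMap K[X] (RatFunc K)))) ∧
        (Squarefree (h.map (algebraMap K[X] (RatFunc K))) →
          Squarefree ((∏ B, h.comp (X + C (c B))).map (algebraMap K[X] (RatFunc K)))) ∧
        ∃ N : ℕ, ∀ n : ℕ, N ≤ n → 1 - ε ≤ mean (∏ B, h.comp (X + C (c B))) n) := by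
  refine ⟨?_, fun h h0 hd => phases K hK h h0 hd⟩
  have hchar : CharP K 2 := by
    obtain ⟨p, hp⟩ := CharP.exists K
    have := hp
    obtain ⟨m, hprime, hcard⟩ := FiniteField.card K p
    rw [hcard] at hK
    have : p = 2 := (Nat.Prime.even_iff hprime).1 (Nat.even_pow.1 hK).1
    rwa [this] at hp
  intro F μ hF hμ hr k Q hQ ε hε
  obtain ⟨M₀, hM₀⟩ := Pool.Agent.H140.MH.Uni.uni K F μ hF hμ hr k Q hQ ε hε
  refine ⟨M₀, fun M hM => ?_⟩
  obtain ⟨N, hN⟩ := hM₀ M hM
  refine ⟨N, fun n hn => ?_⟩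
  have hq : (0 : ℝ) < (Fintype.card K : ℝ) := by exact_mod_cast Fintype.card_pos
  rw [localGowers_eq, abs_div, abs_of_pos (a := (Fintype.card K : ℝ) ^ (k * M) *
    (Fintype.card K : ℝ) ^ n) (by positivity), div_le_iff₀ (by positivity)]
  exact hN n hn

end Pool.Agent.Results.MP_648c71_nt.LocalGowersDichotomy
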