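import Pool.Agent.H614.GV.Comb

/-!
# Multiple ergodic averages with the weights `λ(f(n))`, and multiple recurrence along sign patterns

`f = ∏_j (a_j T + b_j)` is a polynomial without multiple factors which is a product of an odd number, or of two, linear
factors. The weights `λ(f(n))` annihilate all the multiple ergodic averages of commuting transformations, in `L²`,
uniformly in the system: completely at the logarithmic averages, and at all the scales outside a set of logarithmic
density zero. The sets `{n : λ(f(n)) = 1}`, `{n : λ(f(n)) = -1}`, and the sets of the `n` with a given sign pattern at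
up to three linear forms, are sets of multiple recurrence: the theorem of Furstenberg and Katznelson (the
multidimensional theorem of Szemerédi) holds with all the dilations in these sets.

From the starting files: correlations in several variables (`Pool.Graph.R_pool_sql_team_seeded_63374d34`), the density
Hales-Jewett theorem and the times of recurrence (`Pool.Graph.R_pool_sql_team_seeded_843ab51a`, V11270). From Mathlib:
`ArithmeticFunction.cardFactors n`, the number of the prime factors of `n` with multiplicity; `MeasurePreserving`.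
-/

set_option autoImplicit false

namespace Pool.Agent.Results.MP_648c71_nt.MultipleErgodicAverages

open Finset Filter Topology MeasureTheory

/-- The Liouville function. -/
noncomputable def lam (n : ℕ) : ℝ := (-1) ^ ArithmeticFunction.cardFactors n

/-- The value at `n` of the polynomial `f = ∏_j (a_j T + b_j)`. -/
def f {k : ℕ} (a b : Fin k → ℕ) (n : ℕ) : ℕ := ∏ j, (a j * n + b j)

/-- The linear factors `a_j T + b_j` have `a_j ≥ 1` and are pairwise not proportional. -/
def Forms {k : ℕ} (a b : Fin k → ℕ) : Prop := (∀ i, 1 ≤ a i) ∧ ∀ i j, i ≠ j → a i * b j ≠ a j * b i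

/-- The set of the `n` with `λ(f(n)) = η`. -/
def Level {k : ℕ} (a b : Fin k → ℕ) (η : ℝ) : Set ℕ := {n | lam (f a b n) = η}

/-- The set of the `n` with `λ(a_j n + b_j) = s_j` for all `j`. -/
def Pattern {k : ℕ} (a b : Fin k → ℕ) (s : Fin k → ℝ) : Set ℕ := {n | ∀ j, lam (a j * n + b j) = s j}

open Classical in
/-- The indicator function of a set. -/
noncomputable def ind (S : Set ℕ) (n : ℕ) : ℝ := if n ∈ S then 1 else 0

open Classical in
/-- The set `E` has logarithmic density zero. -/
def LogNull (E : Set ℕ) : Prop :=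
  Tendsto (fun X : ℕ => (∑ n ∈ Icc 1 X, if n ∈ E then (1 : ℝ) / n else 0) / Real.log X) atTop (𝓝 0)

/-- `act` is an action of the commutative monoid `M` on `X` by transformations which preserve the measure `μ`; for
commuting transformations `T_1, …, T_t` take `M = ℕ^t`. -/
def PreservingAction {M X : Type} [AddCommMonoid M] [MeasurableSpace X] (μ : Measure X) (act : M → X → X) : Prop :=
  (∀ m, MeasurePreserving (act m) μ μ) ∧ ∀ m m' x, act (m + m') x = act m (act m' x)

/-- The weight `w` annihilates all the multiple averages, uniformly in the system: for all `t` and `ε > 0`, all large `N`,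
all measure preserving actions of commutative monoids on probability spaces, all elements `g_1, …, g_t` of the monoid and
all measurable functions `F_1, …, F_t` bounded by `1`, the square of the `L²` norm of
`∑_{n ≤ N} w(n) F_1(g_1^n x) ⋯ F_t(g_t^n x)` is at most `ε N²` if `N` is not in `E`, and the one of
`∑_{n ≤ N} (w(n) / n) F_1(g_1^n x) ⋯ F_t(g_t^n x)` is at most `ε (log N)²`. -/
def Annihilates (E : Set ℕ) (w : ℕ → ℝ) : Prop :=
  ∀ (t : ℕ) (ε : ℝ), 0 < ε → ∃ N₀ : ℕ, ∀ N : ℕ, N₀ ≤ N → ∀ (M X : Type) [AddCommMonoid M] [MeasurableSpace X]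
    (μ : Measure X) [IsProbabilityMeasure μ] (act : M → X → X), PreservingAction μ act →
    ∀ (g : Fin t → M) (F : Fin t → X → ℝ), (∀ i, Measurable (F i)) → (∀ i x, |F i x| ≤ 1) →
      (N ∉ E → ∫ x, (∑ n ∈ Icc 1 N, w n * ∏ i, F i (act (n • g i) x)) ^ 2 ∂μ ≤ ε * (N : ℝ) ^ 2) ∧
      ∫ x, (∑ n ∈ Icc 1 N, (w n * ∏ i, F i (act (n • g i) x)) / n) ^ 2 ∂μ ≤ ε * (Real.log N) ^ 2

/-- Multiple recurrence along `S`, uniformly in the system: for all `l` and `δ > 0` there is `κ > 0` such that for all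
large `N` the sum of `(1 / n) μ(g_0^(-n) A ∩ ⋯ ∩ g_l^(-n) A)` over the elements `n ≤ N` of `S` is at least `κ log N`, for
all measure preserving actions of commutative monoids, all sets `A` with `μ(A) ≥ δ` and all `g_0, …, g_l`. -/
def MultipleRecurrence (S : Set ℕ) : Prop :=
  ∀ (l : ℕ) (δ : ℝ), 0 < δ → ∃ (κ : ℝ) (N₀ : ℕ), 0 < κ ∧ ∀ N : ℕ, N₀ ≤ N → ∀ (M X : Type) [AddCommMonoid M]
    [MeasurableSpace X] (μ : Measure X) [IsProbabilityMeasure μ] (act : M → X → X), PreservingAction μ act →
    ∀ A : Set X, MeasurableSet A → δ ≤ μ.real A → ∀ g : Fin (l + 1) → M,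
      κ * Real.log N ≤ ∑ n ∈ Icc 1 N, ind S n * μ.real {x | ∀ i, act (n • g i) x ∈ A} / n

/-- The multidimensional theorem of Szemerédi with dilations in `S`: for all vectors `w_0, …, w_l` of `ℤ^d` and all
`δ > 0` there are `M` and `κ > 0` such that for every set `A` of at least `δ N^d` points of a cube of side `N ≥ M` there
is an element `n ≤ M` of `S` such that `x + n w_0, …, x + n w_l` are in `A` for at least `κ N^d` points `x`. -/
def Szemeredi (S : Set ℕ) : Prop :=
  ∀ (d l : ℕ) (w : Fin (l + 1) → Fin d → ℤ) (δ : ℝ), 0 < δ → ∃ (M : ℕ) (κ : ℝ), 0 < κ ∧ ∀ N : ℕ, M ≤ N →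
    ∀ (u : Fin d → ℤ) (A : Finset (Fin d → ℤ)), (∀ x ∈ A, ∀ s, u s < x s ∧ x s ≤ u s + N) →
      δ * (N : ℝ) ^ d ≤ A.card → ∃ n : ℕ, 1 ≤ n ∧ n ≤ M ∧ n ∈ S ∧
        κ * (N : ℝ) ^ d ≤ ({x : Fin d → ℤ | ∀ i, x + (n : ℤ) • w i ∈ A}.ncard : ℝ)

lemma prod_pow {ι : Type} (S : Finset ι) (x : ι → ℕ) (hx : ∀ j, x j ≠ 0) :
    (-1 : ℝ) ^ ArithmeticFunction.cardFactors (∏ j ∈ S, x j) =
      ∏ j ∈ S, (-1 : ℝ) ^ ArithmeticFunction.cardFactors (x j) := by
  classical
  induction S using Finset.induction_on with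
  | empty => simp
  | insert i S hi ih =>
    rw [prod_insert hi, prod_insert hi, ← ih, ArithmeticFunction.cardFactors_mul (hx i) (prod_ne_zero_iff.2 fun j _ => hx j),
      pow_add]

lemma lam_f {k : ℕ} (a b : Fin k → ℕ) (ha : ∀ j, 1 ≤ a j) (n : ℕ) (hn : 1 ≤ n) :
    lam (f a b n) = Pool.Agent.H614.GV.wP a b n := by
  unfold lam f Pool.Agent.H614.GV.wP
  apply prod_pow
  intro j
  have := Nat.mul_pos (ha j) hn
  omega

lemma orth_congr {E : Set ℕ} {w w' : ℕ → ℝ} (h : ∀ n, 1 ≤ n → w n = w' n) (hw : Pool.Agent.H614.GV.Orth E w) :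
    Pool.Agent.H614.GV.Orth E w' := by
  intro t ε hε
  obtain ⟨N₀, hN₀⟩ := hw t ε hε
  refine ⟨N₀, fun N hN hNE F h1 h2 => ?_⟩
  have h3 := hN₀ N hN hNE F h1 h2
  refine le_trans (le_of_eq ?_) h3
  congr 1
  refine sum_congr rfl fun y hy => ?_
  congr 1
  unfold Pool.Agent.Results.MP_a14ce1_nt.FixedShiftPatterns.box at hy
  rw [Fintype.mem_piFinset] at hy
  have h4 := (mem_Ioc.1 (hy 0)).1
  symm
  apply h
  change (0 : ℤ) < y 0 at h4
  omega

lemma orth_smul {E : Set ℕ} {w : ℕ → ℝ} (c : ℝ) (hc : |c| ≤ 1) (hw : Pool.Agent.H614.GV.Orth E w) :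
    Pool.Agent.H614.GV.Orth E fun n => c * w n := by
  intro t ε hε
  obtain ⟨N₀, hN₀⟩ := hw t ε hε
  refine ⟨N₀, fun N hN hNE F h1 h2 => ?_⟩
  have h3 := hN₀ N hN hNE F h1 h2
  simp only [mul_assoc]
  rw [← mul_sum, abs_mul]
  exact (mul_le_of_le_one_left (abs_nonneg _) hc).trans h3

lemma annihilates {E : Set ℕ} (hE : LogNull E) {w : ℕ → ℝ} (hw : Pool.Agent.H614.GV.Orth E w)
    (hw1 : ∀ n, |w n| ≤ 1) : Annihilates E w := by
  intro t ε hε
  obtain ⟨N₁, hN₁⟩ := Pool.Agent.H614.GV.erg hw hw1 t ε hε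
  obtain ⟨N₂, hN₂⟩ := Pool.Agent.H614.GV.erg_log hE hw hw1 t ε hε
  refine ⟨N₁ + N₂, fun N hN M X _ _ μ _ act ha g F hFm hF => ⟨fun hNE => ?_, ?_⟩⟩
  · exact hN₁ N (by omega) hNE M X μ act ⟨ha.1, ha.2⟩ g F hFm hF
  · exact hN₂ N (by omega) M X μ act ⟨ha.1, ha.2⟩ g F hFm hF

lemma recurrence {S : Set ℕ} (h : Pool.Agent.H614.GV.Recur S) : MultipleRecurrence S := by
  intro l δ hδ
  obtain ⟨κ, N₀, hκ, h1⟩ := h l δ hδ
  exact ⟨κ, N₀, hκ, fun N hN M X _ _ μ _ act ha A hA hμA g => h1 N hN M X μ act ⟨ha.1, ha.2⟩ A hA hμA g⟩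

lemma szemeredi {S : Set ℕ} (h : Pool.Agent.H614.GV.Recur S) : Szemeredi S := by
  intro d l w δ hδ
  obtain ⟨M, κ, hκ, h1⟩ := Pool.Agent.H614.GV.comb h d l w δ hδ
  refine ⟨M, κ, hκ, fun N hN u A hA hc => h1 N hN u A ?_ hc⟩
  intro x hx
  unfold Pool.Agent.Results.MP_a14ce1_nt.FixedShiftPatterns.box
  rw [Fintype.mem_piFinset]
  intro s
  rw [mem_Ioc]
  exact hA x hx s

/-- There is a set `E` of integers of logarithmic density zero such that for all polynomials `f = ∏_j (a_j T + b_j)`,
`j < k`, with pairwise non-proportional factors (`a_j ≥ 1`, `b_j ≥ 0`):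

(1) If `k` is odd or `k = 2`, the weight `λ(f(n))` annihilates all the multiple ergodic averages of commuting measure
preserving transformations, in `L²` and uniformly in the system, and the sets `{n : λ(f(n)) = 1}` and
`{n : λ(f(n)) = -1}` are sets of multiple recurrence: the multidimensional theorem of Szemerédi holds with dilations in
these sets.

(2) If `k ≤ 3`, the same holds for every pattern of signs `s`: the weight `1_{λ(a_j n + b_j) = s_j for all j} - 2^(-k)`
annihilates all the multiple ergodic averages, and there is multiple recurrence along the set of the `n` with this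
pattern. -/
theorem result : ∃ E : Set ℕ, LogNull E ∧ ∀ (k : ℕ) (a b : Fin k → ℕ), Forms a b →
    ((Odd k ∨ k = 2) → Annihilates E (fun n => lam (f a b n)) ∧ ∀ η : ℝ, (η = 1 ∨ η = -1) →
      MultipleRecurrence (Level a b η) ∧ Szemeredi (Level a b η)) ∧
    (k ≤ 3 → ∀ s : Fin k → ℝ, (∀ j, s j = 1 ∨ s j = -1) →
      Annihilates E (fun n => ind (Pattern a b s) n - 1 / 2 ^ k) ∧
      MultipleRecurrence (Pattern a b s) ∧ Szemeredi (Pattern a b s)) := by
  obtain ⟨E, hE, h⟩ := Pool.Agent.H614.GV.weights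
  refine ⟨E, hE, fun k a b hab => ⟨fun hk => ?_, fun hk s hs => ?_⟩⟩
  · have h1 := (h k a b hab.1 hab.2).1 hk
    have hl1 : ∀ m, |lam m| ≤ 1 := by
      intro m
      unfold lam
      rw [abs_pow, abs_neg, abs_one, one_pow]
    refine ⟨annihilates hE (orth_congr (fun n hn => (lam_f a b hab.1 n hn).symm) h1) fun n => hl1 _, fun η hη => ?_⟩
    have h2 : Pool.Agent.H614.GV.Orth E fun n => Pool.Agent.H614.GV.in1 (Level a b η) n - 1 / 2 := by
      refine orth_congr (w := fun n => (η / 2) * Pool.Agent.H614.GV.wP a b n) ?_ (orth_smul _ ?_ h1)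
      · intro n hn
        rw [← lam_f a b hab.1 n hn]
        unfold Pool.Agent.H614.GV.in1 Level
        have h3 : lam (f a b n) = 1 ∨ lam (f a b n) = -1 := by
          unfold lam
          exact neg_one_pow_eq_or _ _
        rw [Set.mem_ofPred_eq]
        rcases h3 with h3 | h3 <;> rcases hη with h4 | h4 <;> rw [h3, h4] <;> norm_num
      · rcases hη with h4 | h4 <;> rw [h4] <;> norm_num [abs_div]
    have h3 := Pool.Agent.H614.GV.recur hE (Level a b η) (1 / 2) (by norm_num) (by norm_num) h2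
    exact ⟨recurrence h3, szemeredi h3⟩
  · have h1 := (h k a b hab.1 hab.2).2 hk s hs
    have h2 : ∀ n, Pool.Agent.H614.GV.wS a b s n = ind (Pattern a b s) n - 1 / 2 ^ k := by
      intro n
      unfold Pool.Agent.H614.GV.wS ind
      by_cases h4 : ∀ j, (-1 : ℝ) ^ ArithmeticFunction.cardFactors (a j * n + b j) = s j
      · rw [if_pos h4, if_pos (show n ∈ Pattern a b s from h4)]
      · rw [if_neg h4, if_neg (show n ∉ Pattern a b s from h4)]
    have h3 : Pool.Agent.H614.GV.Orth E fun n => ind (Pattern a b s) n - 1 / 2 ^ k :=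
      orth_congr (fun n _ => h2 n) h1
    have hc1 : (1 : ℝ) / 2 ^ k ≤ 1 := by
      rw [div_le_one (by positivity)]
      exact one_le_pow₀ (by norm_num)
    have h5 := Pool.Agent.H614.GV.recur hE (Pattern a b s) (1 / 2 ^ k) (by positivity) hc1 h3
    refine ⟨annihilates hE h3 fun n => ?_, recurrence h5, szemeredi h5⟩
    rw [← h2]
    exact Pool.Agent.H614.GV.wS_le a b s n

end Pool.Agent.Results.MP_648c71_nt.MultipleErgodicAverages
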